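import Pool.Agent.T9h51.PE.Gold
import Pool.Agent.Results.MP_dd84fd_nt.QuadraticNeighbourhoods

/-!
# The assertion of the problem at ALL heights `x`, for all the moduli near almost all members of thin families

The families are arbitrary finite families of integers up to `B N` whose additive energy of some order `h` is at most
`log ^ C N` times the least possible one. They may have as few as `N ^ (1 / h)` members. Examples are all sets with
different sums of `h` elements (`h = 2`: Sidon sets) with at least `N ^ (1 / h) / log ^ C N` elements, and the values of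
polynomials of degree `d ≥ 2` at the integers whose digits lie in arbitrary sets of at least two digits.

Definitions used (in `Pool.Agent.H560R3.GB`): `g m`: the number of ordered representations of `m` as a sum of two
primes; `sing m`: the singular series `2 C₂ ∏_{p ∣ m, p > 2} (p - 1) / (p - 2)`, where
`C₂ = ∏_{p > 2} (1 - 1 / (p - 1) ^ 2)`.

Method. (i) For `x ≤ q N ^ 2`: the products `m v i`, `m ≤ M`, of a family of nearly minimal energy at the scale `N` form a
family of nearly minimal energy (of a larger order) at the scale `N M`, for all `M ≤ N ^ K`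
(`Pool.Agent.T9h51.PE.prod_energy`): if the exponential sum over the products is large at `α`, the sum over the `v i` is
large at many multiples `m α`, and these are close to few points; so `α` is close to a rational number with a small
denominator. So the theorem of the starting files on families of small energy (`Pool.Agent.R459.near_even`) applies to the
multiples at all dyadic scales. (ii) For larger `x` the moduli up to `x ^ (7 / 12)` which are not divisible by one of
`(log x) ^ c` exceptional integers larger than `(log x) ^ T` are known to be good (`Pool.Agent.T9h57.GL`, for the hand-in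
TwoThirdsLargeRadical; `c` does not depend on `T`); by the minimal energy the exceptional integers of all the dyadic scales
together divide few of the `v i + s` (`Pool.Agent.T9h51.PE.no_divisors`).
-/

set_option autoImplicit false

namespace Pool.Agent.Results.MP_92f640_nt.AllHeights

open Finset Polynomial Pool.Agent.H560R3.GB

/-- `g n ≥ 1.3 n / log ^ 2 n`, and `g n` is `sing n * n / log ^ 2 n` up to a relative error of at most `ε`. -/
def Rep (ε : ℝ) (n : ℕ) : Prop :=
  13 / 10 * ((n : ℝ) / Real.log n ^ 2) ≤ g n ∧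
    |(g n : ℝ) - sing n * ((n : ℝ) / Real.log n ^ 2)| ≤ ε * (sing n * ((n : ℝ) / Real.log n ^ 2))

/-- The even multiples `n` of `q` with `0 < n ≤ x` for which `Rep ε n` is false (a finite set). -/
def exceptional (ε x : ℝ) (q : ℕ) : Set ℕ := {n : ℕ | 0 < n ∧ (n : ℝ) ≤ x ∧ 2 ∣ n ∧ q ∣ n ∧ ¬ Rep ε n}

/-- The even multiples `n` of `q` with `x / 2 < n ≤ x` and `g n < δ n / (log n)²`, as in the problem (a finite set). -/
def few (δ x : ℝ) (q : ℕ) : Set ℕ :=
  {n : ℕ | x / 2 < n ∧ (n : ℝ) ≤ x ∧ 2 ∣ n ∧ q ∣ n ∧ (g n : ℝ) < δ * (n / Real.log n ^ 2)}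

/-- For ALL the integers `q ≥ 1` with `|q - v| ≤ L ^ W` and ALL real `x > 0`:
* at most `x / (q L ^ A)` of the even multiples `n ≤ x` of `q` are exceptional (so there are none if `x < q L ^ A`);
* at most `x / (8 q)` of the even multiples `n` of `q` in `(x / 2, x]` satisfy `g n < (13 / 10) n / (log n)²`; this is the
  assertion of the problem for `q` and all `x`. -/
def AllX (ε : ℝ) (A W : ℕ) (L : ℝ) (v : ℤ) : Prop :=
  ∀ q : ℕ, 1 ≤ q → |(q : ℝ) - v| ≤ L ^ W → ∀ x : ℝ, 0 < x →
    ((exceptional ε x q).ncard : ℝ) ≤ x / (q * L ^ A) ∧ ((few (13 / 10) x q).ncard : ℝ) ≤ x / (8 * q)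

/-- The additive energy of order `h` of a finite family `v` of integers: the number of the solutions of
`v (i 1) + ⋯ + v (i h) = v (j 1) + ⋯ + v (j h)`. -/
noncomputable def energy (h : ℕ) {ι : Type} [Fintype ι] (v : ι → ℤ) : ℕ :=
  Nat.card {q : (Fin h → ι) × (Fin h → ι) // ∑ j, v (q.1 j) = ∑ j, v (q.2 j)}

/-- The sums of `h` elements of `A` are different, up to the order of the summands (`h = 2`: `A` is a Sidon set). -/
def DifferentSums (h : ℕ) (A : Finset ℤ) : Prop :=
  ∀ x y : Fin h → ℤ, (∀ j, x j ∈ A) → (∀ j, y j ∈ A) → ∑ j, x j = ∑ j, y j → ∃ σ : Equiv.Perm (Fin h), ∀ j, x j = y (σ j)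

/-- The integers below `b ^ k` whose `i`-th digit in base `b` belongs to `D i` for all `i < k`. -/
def S (b : ℕ) (D : ℕ → Finset ℕ) (k : ℕ) : Finset ℕ := (range (b ^ k)).filter (fun n : ℕ => ∀ i < k, n / b ^ i % b ∈ D i)

lemma rep_of (ε : ℝ) (m : ℕ) (hm : 3 ≤ m) (hw : Pool.Agent.W93.PG.WinP (min ε (1 / 200)) 1 m) : Rep ε m := by
  obtain ⟨h1, h2⟩ := MP_dd84fd_nt.QuadraticNeighbourhoods.holds_of 1 ε m hm hw
  refine ⟨h1, ?_⟩
  have hmr : (3 : ℝ) ≤ m := by exact_mod_cast hm
  have hlog : 1 ≤ Real.log m := by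
    rw [Real.le_log_iff_exp_le (by linarith)]
    linarith [Real.exp_one_lt_d9]
  have h3 := (h2 0 m (by omega) le_rfl (by
    rw [Nat.cast_zero, sub_zero]
    exact div_le_self (by linarith) (one_le_pow₀ hlog))).2
  rw [MP_dd84fd_nt.QuadraticNeighbourhoods.G_full, Nat.cast_zero, sub_zero] at h3
  exact h3

theorem allX_of (ε : ℝ) (A W : ℕ) (L : ℝ) (v : ℤ) (hL : 8 ≤ L) (h : Pool.Agent.T9h51.PE.Gold.Good (Rep ε) (A + 1) W L v) :
    AllX ε A W L v := by
  intro q hq1 hq2 x hx
  have hq0 : (0 : ℝ) < q := by exact_mod_cast hq1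
  have hL0 : 0 < L := by linarith
  have key : ((exceptional ε x q).ncard : ℝ) ≤ x / (q * L ^ (A + 1)) := h q hq1 hq2 x hx
  have hfin : (exceptional ε x q).Finite := Pool.Agent.T9h51.PE.Gold.exc_finite _ _ _
  refine ⟨key.trans ?_, ?_⟩
  · apply div_le_div_of_nonneg_left hx.le (by positivity)
    exact mul_le_mul_of_nonneg_left (pow_le_pow_right₀ (by linarith) (Nat.le_succ _)) hq0.le
  · have hsub : few (13 / 10) x q ⊆ exceptional ε x q := by
      rintro n ⟨h1, h2, h3, h4, h5⟩
      have hn0 : 0 < n := by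
        have : (0 : ℝ) < n := by linarith
        exact_mod_cast this
      exact ⟨hn0, h2, h3, h4, fun hr => absurd hr.1 (not_le.2 h5)⟩
    have h6 : ((few (13 / 10) x q).ncard : ℝ) ≤ ((exceptional ε x q).ncard : ℝ) := by
      exact_mod_cast Set.ncard_le_ncard hsub hfin
    refine (h6.trans key).trans ?_
    apply div_le_div_of_nonneg_left hx.le (by positivity)
    rw [mul_comm (8 : ℝ)]
    apply mul_le_mul_of_nonneg_left _ hq0.le
    calc (8 : ℝ) ≤ L := hL
      _ ≤ L ^ (A + 1) := le_self_pow₀ (by linarith) (by omega)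

theorem AllX.anti {ε : ℝ} {A W : ℕ} (L L' : ℝ) (v : ℤ) (hL : 1 ≤ L) (hLL : L ≤ L') (h : AllX ε A W L' v) : AllX ε A W L v := by
  intro q hq1 hq2 x hx
  have hq0 : (0 : ℝ) < q := by exact_mod_cast hq1
  obtain ⟨h1, h2⟩ := h q hq1 (hq2.trans (pow_le_pow_left₀ (by linarith) hLL _)) x hx
  refine ⟨h1.trans ?_, h2⟩
  apply div_le_div_of_nonneg_left hx.le (by positivity)
  exact mul_le_mul_of_nonneg_left (pow_le_pow_left₀ (by linarith) hLL _) hq0.le

theorem allG (ε : ℝ) (hε : 0 < ε) (A W U : ℕ) : Pool.Agent.T9h51.ME.Gen.AllG (AllX ε A W) U := by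
  classical
  intro h B C hh
  obtain ⟨N₁, h1⟩ := Pool.Agent.T9h51.PE.Gold.all_x (Rep ε) (min ε (1 / 200)) (lt_min hε (by norm_num)) 1 3
    (fun m hm _ hw => rep_of ε m hm hw) (A + 1) W U h B C hh
  obtain ⟨N₂, h2⟩ := Pool.Agent.H373R2.T7.ev_L' 8
  refine ⟨N₁ + N₂, fun N hN ι _ v hv hE => ?_⟩
  refine le_trans ?_ (h1 N (by omega) ι v hv hE)
  apply Nat.cast_le.2
  apply card_le_card
  intro i hi
  rw [mem_filter] at hi ⊢
  exact ⟨hi.1, fun hg => hi.2 (allX_of ε A W _ _ (h2 N (by omega)) hg)⟩

open Classical in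
/-- **The assertion of the problem at all heights.** Let `ε > 0`, `A`, `W` and `U` be fixed.

(1) Let `h ≥ 1`, `B`, `C` be fixed and let `N` be large. Let `v i`, `i ∈ ι`, be a finite family of integers with
`|v i| ≤ B N` whose additive energy of order `h` is at most `log ^ C N` times `(#ι) ^ (2 h) / N`. Then for all `i ∈ ι`,
with at most `#ι / log ^ U N` exceptions, ALL the integers `q ≥ 1` with `|q - v i| ≤ log ^ W N` have the following property
for ALL real `x > 0`: all but at most `x / (q log ^ A N)` of the even multiples `n ≤ x` of `q` satisfy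
`g n ≥ 1.3 n / log ^ 2 n`, and even the formula of Hardy and Littlewood with a relative error of at most `ε`; and all but at
most `x / (8 q)` of the even multiples `n` of `q` in `(x / 2, x]` satisfy `g n ≥ 1.3 n / log ^ 2 n`.

(2) In particular this holds for all sets `A` of integers in `[-B N, B N]` the sums of `h` elements of which are different,
with at least `(N / log ^ C N) ^ (1 / h)` elements (for `h = 2`: for all Sidon sets with at least
`N ^ (1 / 2) / log ^ (C / 2) N` elements): all the elements of `A`, with at most `#A / log ^ U N` exceptions, have this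
property.

(3) Let `b ≥ 2`, `d ≥ 2`, `B` and `κ ≠ 0` be fixed and let `k` be large. Then for ALL sets `D 0, …, D (k - 1)` of at least
two digits in base `b` and ALL polynomials `f` with integer coefficients, of degree `d` and with leading coefficient `κ`,
such that `|f(n)| ≤ B b ^ (d k)` for all `n < b ^ k`: for all the integers `n < b ^ k` whose `i`-th digit lies in `D i` for
all `i < k`, with a proportion of at most `1 / k ^ U` of exceptions, `v = f(n)` has this property, with `k` in place of
`log N`. -/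
theorem result (ε : ℝ) (hε : 0 < ε) (A W U : ℕ) :
    (∀ h B C : ℕ, 1 ≤ h → ∃ N₀ : ℕ, ∀ N : ℕ, N₀ ≤ N →
      (∀ (ι : Type) [Fintype ι] (v : ι → ℤ), (∀ i, |v i| ≤ B * N) →
        (energy h v : ℝ) * N ≤ Real.log N ^ C * (Fintype.card ι : ℝ) ^ (2 * h) →
        ((univ.filter (fun i => ¬ AllX ε A W (Real.log N) (v i))).card : ℝ) ≤ Fintype.card ι / Real.log N ^ U) ∧
      (∀ V : Finset ℤ, (∀ a ∈ V, |a| ≤ B * N) → DifferentSums h V → (N : ℝ) ≤ Real.log N ^ C * (V.card : ℝ) ^ h →
        ((V.filter (fun a => ¬ AllX ε A W (Real.log N) a)).card : ℝ) ≤ V.card / Real.log N ^ U)) ∧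
    (∀ b d B : ℕ, 2 ≤ b → 2 ≤ d → ∀ κ : ℤ, κ ≠ 0 → ∃ k₀ : ℕ, ∀ k : ℕ, k₀ ≤ k →
      ∀ D : ℕ → Finset ℕ, (∀ i < k, D i ⊆ range b ∧ 2 ≤ (D i).card) →
      ∀ f : ℤ[X], f.natDegree = d → f.leadingCoeff = κ → (∀ n < b ^ k, |f.eval (n : ℤ)| ≤ B * ((b ^ (d * k) : ℕ) : ℤ)) →
      (((S b D k).filter (fun n : ℕ => ¬ AllX ε A W k (f.eval (n : ℤ)))).card : ℝ) ≤ (S b D k).card / (k : ℝ) ^ U) := by
  have hP := allG ε hε A W U
  refine ⟨fun h B C hh => ?_, fun b d B hb hd κ hκ => ?_⟩
  · obtain ⟨n1, h1⟩ := hP h B C hh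
    obtain ⟨n2, h2⟩ := Pool.Agent.T9h51.ME.Gen.sidonSet hP h B C hh
    exact ⟨n1 + n2, fun N hN => ⟨h1 N (by omega), h2 N (by omega)⟩⟩
  · exact Pool.Agent.T9h51.ME.Gen.poly hP (fun L L' v hL hLL => AllX.anti L L' v hL hLL) b d B hb hd κ hκ

end Pool.Agent.Results.MP_92f640_nt.AllHeights
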