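import Pool.Agent.T9h55.KT.MixLaw

/-!
# Sums of two primes without exceptions, for almost all small perturbations of a few primes which keep the residues

Let `z_1 ≤ z_2 ≤ …` tend to infinity slowly, `z_p! ≤ (log p)^A` (and `z` constant on `[2^j, 2^(j+1))`). Every prime `p` stays
at its place with probability `1 - e_p` and is moved with probability `e_p`, to `p + z_p! i` with `i` uniformly distributed on
`0, …, H_p - 1`, where `p / (K (log p)^A) ≤ z_p! H_p ≤ K p / (log p)^A`; these moves are independent. So a large prime keeps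
its residues modulo all fixed integers, it is moved by at most `K p / (log p)^A`, `A` arbitrarily large, and the proportion
`e_p` of the moved primes is an arbitrarily small constant, or even tends to `0` like `(log p)^(-B)`. Let `V` be the set of the
new positions. It is proved that almost surely for ALL large even `n`

* `n = v + v'` has at least `c e_n^2 n / log^2 n` solutions in `V`, `c = 1 / (10^11 4^A K^4)`,
* `n = p + v` has at least `c' e_n n / log^2 n` solutions with a prime `p` and `v ∈ V`, `c' = 1 / (10^8 2^A K^2)`.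

In particular, if `e_p ≥ ε` for all `p`, the assertion of Q1 is true for `V` almost surely, with `δ = c ε^2` and without
exceptions: for all large `x` and all `1 ≤ q ≤ x / 4` there is no even multiple `n` of `q` in `(x / 2, x]` with
`g_V(n) < δ n / log^2 n`.

Proof. The theorem of Siegel and Walfisz gives the right number of primes in the residue classes modulo `z!` shortly below a
number `b`, so that `b` prime to `z!` is in `V` with probability at least `c (z! / φ(z!)) e / log n`. A sieve gives the right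
number of pairs of numbers prime to `z!` with the sum `n` (and, with Siegel and Walfisz again, of primes `p` with `n - p` prime
to `z!`). The events that different numbers are in `V` are negatively dependent, and an exponential inequality, applied in two
stages (first the small summands, then the large ones), shows that the number of the representations of `n` is smaller than
half of its expectation with probability at most `2 exp (-c n / (log n)^(2 B + 2))`. The lemma of Borel and Cantelli finishes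
the proof.
-/

set_option autoImplicit false

namespace Pool.Agent.Results.MP_92f640_nt.PerturbedPrimes

open Finset Filter Topology MeasureTheory ProbabilityTheory

open Classical in
/-- `g_V(n)`: the number of the ordered representations of `n` as a sum of two elements of `V`. -/
noncomputable def g (V : Set ℕ) (n : ℕ) : ℕ := ((range (n + 1)).filter fun v => v ∈ V ∧ n - v ∈ V).card

open Classical in
/-- The number of the primes `p ≤ n` with `n - p ∈ V`. -/
noncomputable def mixed (V : Set ℕ) (n : ℕ) : ℕ := ((range (n + 1)).filter fun p => p.Prime ∧ n - p ∈ V).card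

open Classical in
/-- The even multiples `n` of `q` in `(x / 2, x]` with `g_V(n) < δ n / log^2 n`. -/
noncomputable def exceptional (V : Set ℕ) (δ x : ℝ) (q : ℕ) : Finset ℕ :=
  (Icc 1 ⌊x⌋₊).filter fun n : ℕ => x / 2 < (n : ℝ) ∧ Even n ∧ q ∣ n ∧ (g V n : ℝ) < δ * (n : ℝ) / Real.log (n : ℝ) ^ 2

/-- `z_n = y_j` for `2^j ≤ n < 2^(j + 1)`. -/
def z (y : ℕ → ℕ) (n : ℕ) : ℕ := y (Nat.log 2 n)

/-- The set of the new positions `p + z_p! ξ_p` of the primes `p`. -/
def moved (y ξ : ℕ → ℕ) : Set ℕ := {n | ∃ p : ℕ, p.Prime ∧ n = p + (z y p).factorial * ξ p}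

/-- The integers `ξ_0, ξ_1, …` are independent random variables (on a probability space), and for `j ≥ 1` the variable `ξ_j` is
`0` with probability `1 - e_j`, and otherwise uniformly distributed on `0, …, H_j - 1`. -/
structure Perturbation {Ω : Type*} [MeasurableSpace Ω] (μ : Measure Ω) (H : ℕ → ℕ) (e : ℕ → ℝ) (ξ : ℕ → Ω → ℕ) : Prop where
  prob : IsProbabilityMeasure μ
  meas : ∀ j, Measurable (ξ j)
  indep : iIndepFun ξ μ
  stay : ∀ j, 1 ≤ j → μ.real {ω | ξ j ω = 0} = 1 - e j + e j / (H j : ℝ)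
  move : ∀ j, 1 ≤ j → ∀ i, 1 ≤ i → i < H j → μ.real {ω | ξ j ω = i} = e j / (H j : ℝ)

/-- The admissible parameters: `y_j` is nondecreasing and tends to infinity, for all large `n` one has `z_n! ≤ (log n)^A` and
`n / (K (log n)^A) ≤ z_n! H_n ≤ K n / (log n)^A`; `e_n` is nonincreasing, `0 < e_n ≤ 1`, and `e_n ≥ (log n)^(-B)` for all
large `n`. -/
structure Admissible (A B K : ℕ) (y H : ℕ → ℕ) (e : ℕ → ℝ) : Prop where
  mono : Monotone y
  tendsto : Tendsto y atTop atTop
  modulus : ∀ᶠ n : ℕ in atTop, (((z y n).factorial : ℕ) : ℝ) ≤ Real.log n ^ A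
  window : ∀ᶠ n : ℕ in atTop, (n : ℝ) / (K * Real.log n ^ A) ≤ ((z y n).factorial : ℝ) * H n ∧
    ((z y n).factorial : ℝ) * H n ≤ (K : ℝ) * n / Real.log n ^ A
  anti : Antitone e
  pos : ∀ n, 0 < e n ∧ e n ≤ 1
  low : ∀ᶠ n : ℕ in atTop, 1 / Real.log n ^ B ≤ e n

universe u

/-- For all `A ≥ 1`, `B` and all `e` as in `Admissible` there are `y`, `H` such that `A, B, 2, y, H, e` are admissible and
`H_n ≥ 1`. For all admissible `A, B, K, y, H, e` with `K ≥ 1`: if `H_n ≥ 1`, there are `ξ_n` as in `Perturbation`; and for all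
such `ξ_n` almost surely the set `V` of the new positions of the primes satisfies:

(1) `g_V(n) ≥ c e_n^2 n / log^2 n` for all large even `n`, with `c = 1 / (10^11 4^A K^4)`;

(2) at least `c' e_n n / log^2 n` primes `p` are such that `n - p ∈ V`, for all large even `n`, with `c' = 1 / (10^8 2^A K^2)`;

(3) if `e_n ≥ ε > 0` for all `n`, then for all large `x` and all `1 ≤ q ≤ x / 4` there is no even multiple `n` of `q` in
`(x / 2, x]` with `g_V(n) < δ n / log^2 n`, with `δ = c ε^2`. -/
theorem result :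
    (∀ (A B : ℕ) (e : ℕ → ℝ), 1 ≤ A → Antitone e → (∀ n, 0 < e n ∧ e n ≤ 1) →
      (∀ᶠ n : ℕ in atTop, 1 / Real.log n ^ B ≤ e n) → ∃ y H : ℕ → ℕ, Admissible A B 2 y H e ∧ ∀ n, 1 ≤ H n) ∧
    ∀ (A B K : ℕ) (y H : ℕ → ℕ) (e : ℕ → ℝ), 1 ≤ K → Admissible A B K y H e →
      ((∀ n, 1 ≤ n → 1 ≤ H n) →
        ∃ (Ω : Type) (_ : MeasurableSpace Ω) (μ : Measure Ω) (ξ : ℕ → Ω → ℕ), Perturbation μ H e ξ) ∧
      ∀ (Ω : Type u) [MeasurableSpace Ω] (μ : Measure Ω) (ξ : ℕ → Ω → ℕ), Perturbation μ H e ξ →
        ∀ᵐ ω ∂μ,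
          (∀ᶠ n : ℕ in atTop, Even n → e n ^ 2 / (10 ^ 11 * 4 ^ A * (K : ℝ) ^ 4) * ((n : ℝ) / Real.log n ^ 2) ≤
            g (moved y fun p => ξ p ω) n) ∧
          (∀ᶠ n : ℕ in atTop, Even n → e n / (10 ^ 8 * 2 ^ A * (K : ℝ) ^ 2) * ((n : ℝ) / Real.log n ^ 2) ≤
            mixed (moved y fun p => ξ p ω) n) ∧
          ∀ ε : ℝ, 0 < ε → (∀ n, ε ≤ e n) → ∃ X₀ : ℝ, ∀ x : ℝ, X₀ ≤ x → ∀ q : ℕ, 0 < q → (q : ℝ) ≤ x / 4 →
            exceptional (moved y fun p => ξ p ω) (ε ^ 2 / (10 ^ 11 * 4 ^ A * (K : ℝ) ^ 4)) x q = ∅ := by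
  classical
  have hlog : Tendsto (fun k : ℕ => Real.log (k : ℝ)) atTop atTop :=
    Real.tendsto_log_atTop.comp tendsto_natCast_atTop_atTop
  refine ⟨fun A B e hA he1 he2 he3 => ?_, fun A B K y H e hK hadm => ⟨fun hH => ?_, ?_⟩⟩
  · obtain ⟨y, H, h1, h2, h3, h4, h5⟩ := Pool.Agent.T9h55.KT.exists_adm2 A
    refine ⟨y, H, ⟨h1, h2, ?_, ?_, he1, he2, he3⟩, h5⟩
    · filter_upwards [h3, hlog.eventually_ge_atTop 1] with k h6 h7
      exact h6.trans (le_self_pow₀ h7 (by omega))
    · filter_upwards [h4, hlog.eventually_ge_atTop 1] with k h6 h7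
      have h8 : 0 < Real.log (k : ℝ) ^ A := by positivity
      constructor
      · refine le_trans ?_ h6.1
        apply div_le_div_of_nonneg_left (Nat.cast_nonneg _) h8
        push_cast
        linarith
      · refine h6.2.trans (le_of_eq ?_)
        push_cast
        ring
  · obtain ⟨Ω, mΩ, μ, ξ, h1, h2, h3, h4⟩ := Pool.Agent.T9h55.KT.exists_eps H hH e (fun n => (hadm.pos n).1.le)
      (fun n => (hadm.pos n).2)
    refine ⟨Ω, mΩ, μ, ξ, ⟨h1, h2, h3, fun j hj => ?_, fun j hj i hi hiH => ?_⟩⟩
    · rw [h4 j hj 0 (hH j hj), if_pos rfl]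
    · rw [h4 j hj i hiH, if_neg (by omega), zero_add]
  · intro Ω _ μ ξ hξ
    have := hξ.prob
    have hlow : ∀ j, 1 ≤ j → ∀ h < H j, e j / (H j : ℝ) ≤ μ.real {ω | ξ j ω = h} := by
      intro j hj h hh
      rcases Nat.eq_zero_or_pos h with h0 | h0
      · subst h0
        rw [hξ.stay j hj]
        linarith [(hadm.pos j).2]
      · rw [hξ.move j hj h h0 hh]
    have hg := Pool.Agent.T9h55.KT.gold_law (μ := μ) A K B hK e hadm.anti (fun n => (hadm.pos n).1)
      (fun n => (hadm.pos n).2) hadm.low y H ξ hadm.mono hadm.tendsto hadm.modulus hadm.window hξ.meas hξ.indep hlow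
    have hx := Pool.Agent.T9h55.KT.mix_law (μ := μ) A K B hK e hadm.anti (fun n => (hadm.pos n).1)
      (fun n => (hadm.pos n).2) hadm.low y H ξ hadm.tendsto hadm.modulus hadm.window hξ.meas hξ.indep hlow
    filter_upwards [hg, hx] with ω h1 h2
    set V : Set ℕ := moved y fun p => ξ p ω with hV
    have h1' : ∀ᶠ n : ℕ in atTop, Even n → e n ^ 2 / (10 ^ 11 * 4 ^ A * (K : ℝ) ^ 4) * ((n : ℝ) / Real.log n ^ 2) ≤ g V n := by
      filter_upwards [h1] with n h3 h4
      exact h3 h4
    refine ⟨h1', ?_, fun ε hε hεe => ?_⟩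
    · filter_upwards [h2] with n h3 h4
      exact h3 h4
    · obtain ⟨N, hN⟩ := eventually_atTop.1 h1'
      refine ⟨2 * N, fun x hx q _ _ => ?_⟩
      rw [Finset.eq_empty_iff_forall_notMem]
      intro n hn
      unfold exceptional at hn
      rw [mem_filter] at hn
      obtain ⟨-, h3, h4, -, h5⟩ := hn
      have h6 : N ≤ n := by
        have : (N : ℝ) ≤ n := by linarith
        exact_mod_cast this
      have h7 := hN n h6 h4
      have hK1 : (1 : ℝ) ≤ K := by exact_mod_cast hK
      have h8 : ε ^ 2 / (10 ^ 11 * 4 ^ A * (K : ℝ) ^ 4) * ((n : ℝ) / Real.log n ^ 2) ≤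
          e n ^ 2 / (10 ^ 11 * 4 ^ A * (K : ℝ) ^ 4) * ((n : ℝ) / Real.log n ^ 2) := by
        apply mul_le_mul_of_nonneg_right _ (by positivity)
        apply div_le_div_of_nonneg_right _ (by positivity)
        exact pow_le_pow_left₀ hε.le (hεe n) 2
      rw [mul_div_assoc] at h5
      linarith

end Pool.Agent.Results.MP_92f640_nt.PerturbedPrimes
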