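import Pool.Agent.T9h57.GP.ConvD
import Pool.Agent.R459.C2

/-!
# Goldbach lower bounds in all residue classes of the moduli up to `x ^ (7 / 10 - ρ)`: the exceptional moduli are
# multiples of few integers, all of them with a large radical

There is a set `D` of at most `(log x) ^ c` integers, the RADICALS of which are larger than any given power of `log x`,
such that for every modulus `q ≤ x ^ (7 / 10 - ρ)` which is not divisible by a member of `D` and for EVERY residue
class `a` modulo `q`, in particular for the multiples of `q`, all but at most `x / (q (log x) ^ A)` of the even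
integers `n ≤ x`, `n ≡ a (mod q)`, have at least one twentieth of the number of representations as a sum of two primes
which Hardy and Littlewood predict, also if one of the primes is restricted to an arbitrary window of a length of at
least `n / (log n) ^ W`. So all these moduli satisfy the assertion of the problem, with `δ = 13 / 200`.

In particular no modulus `q ≤ x ^ (7 / 10 - ρ)` whose radical `∏_{p ∣ q} p` is at most a power of `log x` is
exceptional, for example no power `q = r ^ k` of an integer `r ≤ (log x) ^ B`.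

Definitions used (in `Pool.Agent.H560R3.GB`): `g n`: the number of ordered pairs of primes `(p₁, p₂)` with
`p₁ + p₂ = n`; `sing n = 2 C₂ ∏_{p ∣ n, p > 2} (p - 1) / (p - 2)`, where `C₂ = ∏_{p > 2} (1 - 1 / (p - 1) ^ 2)`.

Proof (`T9h57/PK`, `T9h57/GP`). Let `χ` be a character modulo `d`, where the radical `r` of `d` is at most a power
of `log N`. By the formula of Postnikov `χ(1 + r u) = e(f(u))` for a polynomial `f`, and Vinogradov's method bounds
short sums of `χ(n) n ^ (-i t)`; so `L(s, χ)` has no zeros in a wide region near the line `Re s = 1` unless `χ` is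
real, and then its conductor is at most `8 r`. So the sums over primes twisted by `χ` save every power of `log x`
already for `x ≥ d ^ κ`, `κ > 0`. Let `G` be `log N` times the indicator function of the integers without
prime factors up to `N ^ (3 / 10)`. Then `Λ(m) Λ(n) ≥ Λ(m) G(n) + G(m) Λ(n) - G(m) G(n)` up to prime powers, and the
mean value `w` of `G` satisfies `2 w - w ^ 2 > 1 / 20`. The difference of `G` and a sieve model is a bilinear sum
with flexible lengths, which is small in mean square near the fractions with small denominators over all characters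
modulo `q` which are not induced by one of few primitive characters, for which the sum of `G` is large; the conductors
of the latter (divided by small factors) are the members of `D`, and they have a large radical by the bounds for sums
over primes. Elsewhere the large sieve for the fractions `j / q` is used.
-/

set_option autoImplicit false

namespace Pool.Agent.Results.MP_92f640_nt.SevenTenthsLargeRadical

open Finset
open Pool.Agent.H560R3.GB (g sing)

/-- The radical of `q`: the product of the primes dividing `q`. -/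
def radical (q : ℕ) : ℕ := ∏ p ∈ q.primeFactors, p

/-- The number of primes `p` with `y₁ < p ≤ y₂` such that `n - p` is a prime. -/
def count (n y₁ y₂ : ℕ) : ℕ := ((Ioc y₁ y₂).filter (fun p => p.Prime ∧ (n - p).Prime)).card

/-- In every window `(y₁, y₂] ⊆ (0, n]` of a length of at least `n / (log n)^W` the number of primes `p` such that
`n - p` is a prime is at least one twentieth of `sing n * (y₂ - y₁) / (log n)²`. For the window `(0, n]` it is `g n`,
and the prediction of Hardy and Littlewood is `sing n * n / (log n)²`. -/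
def Lower (W n : ℕ) : Prop :=
  ∀ y₁ y₂ : ℕ, y₁ < y₂ → y₂ ≤ n → (n : ℝ) / Real.log n ^ W ≤ (y₂ : ℝ) - y₁ →
    1 / 20 * (sing n * ((y₂ : ℝ) - y₁) / Real.log n ^ 2) ≤ (count n y₁ y₂ : ℝ)

/-- The even integers `0 < n ≤ x` with `n ≡ a (mod q)` for which `Lower W n` is false. -/
def exceptional (W : ℕ) (x : ℝ) (q : ℕ) (a : ℤ) : Set ℕ :=
  {n : ℕ | 0 < n ∧ (n : ℝ) ≤ x ∧ 2 ∣ n ∧ (n : ℤ) ≡ a [ZMOD q] ∧ ¬ Lower W n}

/-- The even multiples `n` of `q` with `x / 2 < n ≤ x` and `g n < δ n / (log n)²`, as in the problem. -/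
def few (δ x : ℝ) (q : ℕ) : Set ℕ :=
  {n : ℕ | x / 2 < n ∧ (n : ℝ) ≤ x ∧ 2 ∣ n ∧ q ∣ n ∧ (g n : ℝ) < δ * (n / Real.log n ^ 2)}

theorem cnt_eq (n : ℕ) : Pool.Agent.W93.PG.cnt n 0 n = g n := by
  unfold Pool.Agent.W93.PG.cnt g
  refine card_bij (fun p _ => (p, n - p)) ?_ ?_ ?_
  · intro p hp
    rw [mem_filter, mem_Ioc] at hp
    rw [mem_filter, HasAntidiagonal.mem_antidiagonal]
    exact ⟨by simp only; omega, hp.2⟩
  · intro p _ p' _ h
    exact congrArg Prod.fst h
  · rintro ⟨a, b⟩ h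
    rw [mem_filter, HasAntidiagonal.mem_antidiagonal] at h
    obtain ⟨h1, h2, h3⟩ := h
    simp only at h1 h2 h3
    have ha := h2.pos
    refine ⟨a, ?_, ?_⟩
    · rw [mem_filter, mem_Ioc]
      refine ⟨⟨ha, by omega⟩, h2, ?_⟩
      have : n - a = b := by omega
      rw [this]
      exact h3
    · have : n - a = b := by omega
      simp [this]

theorem few_le {δ x : ℝ} {q : ℕ} {Q : ℕ → Prop} (hQ : ∀ n : ℕ, Q n → δ * (n / Real.log n ^ 2) ≤ g n)
    (hx8 : Real.exp 8 ≤ x) (hq : 1 ≤ q)
    (h : ({n : ℕ | 0 < n ∧ (n : ℝ) ≤ x ∧ 2 ∣ n ∧ (n : ℤ) ≡ 0 [ZMOD q] ∧ ¬ Q n}).Finite ∧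
      (({n : ℕ | 0 < n ∧ (n : ℝ) ≤ x ∧ 2 ∣ n ∧ (n : ℤ) ≡ 0 [ZMOD q] ∧ ¬ Q n}.ncard : ℕ) : ℝ) ≤
        x / (q * Real.log x ^ 1)) :
    (few δ x q).Finite ∧ ((few δ x q).ncard : ℝ) ≤ x / (8 * q) := by
  have hx0 : 0 < x := lt_of_lt_of_le (Real.exp_pos _) hx8
  have hl8 : 8 ≤ Real.log x := by rw [Real.le_log_iff_exp_le hx0]; exact hx8
  have hq0 : (0 : ℝ) < q := by exact_mod_cast hq
  obtain ⟨f1, f2⟩ := h
  have hsub : few δ x q ⊆ {n : ℕ | 0 < n ∧ (n : ℝ) ≤ x ∧ 2 ∣ n ∧ (n : ℤ) ≡ 0 [ZMOD q] ∧ ¬ Q n} := by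
    rintro n ⟨e1, e2, e3, e4, e5⟩
    have hn0 : 0 < n := by
      have : (0 : ℝ) < n := by linarith
      exact_mod_cast this
    refine ⟨hn0, e2, e3, ?_, ?_⟩
    · exact (Int.modEq_zero_iff_dvd).2 (by exact_mod_cast e4)
    · intro h1
      exact absurd (hQ n h1) (not_le.2 e5)
  refine ⟨f1.subset hsub, ?_⟩
  have h4 : ((few δ x q).ncard : ℝ) ≤
      (({n : ℕ | 0 < n ∧ (n : ℝ) ≤ x ∧ 2 ∣ n ∧ (n : ℤ) ≡ 0 [ZMOD q] ∧ ¬ Q n}.ncard : ℕ) : ℝ) := by
    exact_mod_cast Set.ncard_le_ncard hsub f1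
  refine h4.trans (f2.trans ?_)
  rw [pow_one]
  apply div_le_div_of_nonneg_left hx0.le (by positivity)
  rw [mul_comm (8 : ℝ)]
  exact mul_le_mul_of_nonneg_left hl8 hq0.le

/-- For all `ρ > 0`, `A` and `W` there is `c` such that for all `B` and all sufficiently large real `x` there is a
finite set `D` of at most `(log x) ^ c` integers, the radical of each of which is larger than `(log x) ^ B`, with the
following property. Let `1 ≤ q ≤ x ^ (7 / 10 - ρ)` be an integer which is not divisible by a member of `D`. Then for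
EVERY integer `a` all but at most `x / (q (log x) ^ A)` of the even integers `0 < n ≤ x`, `n ≡ a (mod q)`, satisfy
`Lower W n`; and all but at most `x / (8 q)` of the even multiples `n` of `q` in `(x / 2, x]` satisfy
`g n ≥ (13 / 200) n / (log n)²`, which is the assertion of the problem for `q`, with `δ = 13 / 200`. -/
theorem result (ρ : ℝ) (hρ : 0 < ρ) (A W : ℕ) :
    ∃ c : ℕ, ∀ B : ℕ, ∃ x₀ : ℝ, ∀ x : ℝ, x₀ ≤ x → ∃ D : Finset ℕ, (D.card : ℝ) ≤ Real.log x ^ c ∧
      (∀ d ∈ D, Real.log x ^ B < (radical d : ℝ)) ∧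
      ∀ q : ℕ, 1 ≤ q → (q : ℝ) ≤ x ^ (7 / 10 - ρ) → (∀ d ∈ D, ¬ d ∣ q) →
        (∀ a : ℤ, (exceptional W x q a).Finite ∧
          ((exceptional W x q a).ncard : ℝ) ≤ x / (q * Real.log x ^ A)) ∧
        ((few (13 / 200) x q).Finite ∧ ((few (13 / 200) x q).ncard : ℝ) ≤ x / (8 * q)) := by
  obtain ⟨c, h⟩ := Pool.Agent.T9h57.GP.class_few_low
    (fun n => Lower W n ∧ (1 / 20 * (sing n * n / Real.log n ^ 2) ≤ g n)) W ⟨3, fun n hn _ hw => by
      refine ⟨hw, ?_⟩
      have hL := Pool.Agent.T9h57.GP.log_ge_one hn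
      have h1 := hw 0 n (by omega) le_rfl (by
        rw [Nat.cast_zero, sub_zero]
        exact div_le_self (Nat.cast_nonneg _) (one_le_pow₀ hL))
      rw [cnt_eq] at h1
      rw [Nat.cast_zero, sub_zero] at h1
      exact h1⟩ ρ hρ (A + 1)
  refine ⟨c, fun B => ?_⟩
  obtain ⟨x₀, h0⟩ := h B
  refine ⟨max x₀ (Real.exp 8), fun x hx => ?_⟩
  have hx8 : Real.exp 8 ≤ x := (le_max_right _ _).trans hx
  obtain ⟨D, hD1, hD2, h1⟩ := h0 x ((le_max_left _ _).trans hx)
  have hx0 : 0 < x := lt_of_lt_of_le (Real.exp_pos _) hx8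
  have hl8 : 8 ≤ Real.log x := by rw [Real.le_log_iff_exp_le hx0]; exact hx8
  have hl1 : 1 ≤ Real.log x := by linarith
  refine ⟨D, hD1, hD2, fun q hq hqx hqD => ?_⟩
  have hq0 : (0 : ℝ) < q := by exact_mod_cast hq
  refine ⟨fun a => ?_, ?_⟩
  · obtain ⟨f1, f2⟩ := h1 q hq hqx hqD a
    have hsub : exceptional W x q a ⊆ {n : ℕ | 0 < n ∧ (n : ℝ) ≤ x ∧ 2 ∣ n ∧ (n : ℤ) ≡ a [ZMOD q] ∧
        ¬ (Lower W n ∧ (1 / 20 * (sing n * n / Real.log n ^ 2) ≤ g n))} := by
      rintro n ⟨e1, e2, e3, e4, e5⟩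
      exact ⟨e1, e2, e3, e4, fun h => e5 h.1⟩
    refine ⟨f1.subset hsub, ?_⟩
    have h4 : ((exceptional W x q a).ncard : ℝ) ≤
        (({n : ℕ | 0 < n ∧ (n : ℝ) ≤ x ∧ 2 ∣ n ∧ (n : ℤ) ≡ a [ZMOD q] ∧
          ¬ (Lower W n ∧ (1 / 20 * (sing n * n / Real.log n ^ 2) ≤ g n))}.ncard : ℕ) : ℝ) := by
      exact_mod_cast Set.ncard_le_ncard hsub f1
    refine h4.trans (f2.trans ?_)
    apply div_le_div_of_nonneg_left hx0.le (by positivity)
    exact mul_le_mul_of_nonneg_left (pow_le_pow_right₀ hl1 (Nat.le_succ _)) hq0.le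
  · obtain ⟨f1, f2⟩ := h1 q hq hqx hqD 0
    refine few_le (Q := fun n => Lower W n ∧ (1 / 20 * (sing n * n / Real.log n ^ 2) ≤ g n)) (fun n hn => ?_) hx8 hq
      ⟨f1, f2.trans ?_⟩
    · have hn := hn.2
      have k2 := Pool.Agent.R459.sing_num n
      have k3 : (0 : ℝ) ≤ (n : ℝ) / Real.log n ^ 2 := by positivity
      rw [mul_div_assoc] at hn
      nlinarith
    · apply div_le_div_of_nonneg_left hx0.le (by positivity)
      exact mul_le_mul_of_nonneg_left (pow_le_pow_right₀ hl1 (by omega)) hq0.le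

end Pool.Agent.Results.MP_92f640_nt.SevenTenthsLargeRadical
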