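import Pool.Agent.T9h57.GL.B3
import Pool.Agent.R459.C2

/-!
# Goldbach representations in all residue classes of the moduli up to `x ^ (2 / 3 - ρ)`: the exceptional moduli are
# multiples of few integers, all of them with a large radical

There is a set `D` of at most `(log x) ^ c` integers, the RADICALS of which are larger than any given power of `log x`,
such that for every modulus `q ≤ x ^ (2 / 3 - ρ)` which is not divisible by a member of `D` and for EVERY residue
class `a` modulo `q`, in particular for the multiples of `q`, all but at most `x / (q (log x) ^ A)` of the even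
integers `n ≤ x`, `n ≡ a (mod q)`, have the number of representations as a sum of two primes which Hardy and
Littlewood predict, up to the factor `1 ± ε`, also if one of the primes is restricted to an arbitrary window of a
length of at least `n / (log n) ^ W`. So all these moduli satisfy the assertion of the problem, with `δ = 13 / 10`.

In particular no modulus `q ≤ x ^ (2 / 3 - ρ)` whose radical `∏_{p ∣ q} p` is at most a power of `log x` is
exceptional, for example no power `q = r ^ k` of an integer `r ≤ (log x) ^ B`.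

Definitions used (in `Pool.Agent.H560R3.GB`): `g n`: the number of ordered pairs of primes `(p₁, p₂)` with
`p₁ + p₂ = n`; `sing n = 2 C₂ ∏_{p ∣ n, p > 2} (p - 1) / (p - 2)`, where `C₂ = ∏_{p > 2} (1 - 1 / (p - 1) ^ 2)`;
`HL n = sing n * n / (log n)²`.

Proof (`T9h57/PK`, `T9h57/GP`, `T9h57/GL`). Let `χ` be a character modulo `d`, where the radical `r` of `d` is at most
a power of `log N`. By the formula of Postnikov `χ(1 + r u) = e(f(u))` for a polynomial `f` of a degree of about
`log d / log r` whose coefficients have denominators of controlled sizes; Vinogradov's method (the mean value theorem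
applied to double sums over `1 + r ^ s (u + v w)`) then bounds short sums of `χ(n) n ^ (-i t)`, so that `L(s, χ)`
grows slowly near the line `Re s = 1` and has no zeros in a wide region there, unless `χ` is real, and the conductor
of a real character is at most `8 r`. So the sums over primes twisted by `χ` save every power of `log x` already for
`x ≥ d ^ κ`, `κ > 0`. For all primitive characters of conductors up to `N ^ (2 / 3 - ρ)` but at most
`(log N) ^ c` of them the sums over primes are small, by the large sieve for high powers of the short factors in the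
decomposition of the indicator function of the primes into sums of type I of the level `N ^ (2 / 3)` and bilinear
sums in which one variable is between `N ^ κ` and `N ^ (1 / 3 + κ)` (`R460/GH`); the conductors of the exceptions,
divided by small factors, are the members of `D`, and they have a large radical by the former estimate. For a
modulus which is not divisible by a member of `D` the mean squares over all characters are small near the fractions
with small denominators, which the circle method in a residue class needs; away from these fractions the large sieve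
over the fractions `j / q` is used.
-/

set_option autoImplicit false

namespace Pool.Agent.Results.MP_92f640_nt.TwoThirdsLargeRadical

open Finset
open Pool.Agent.H560R3.GB (g HL sing)

/-- The radical of `q`: the product of the primes dividing `q`. -/
def radical (q : ℕ) : ℕ := ∏ p ∈ q.primeFactors, p

/-- The number of primes `p` with `y₁ < p ≤ y₂` such that `n - p` is a prime. -/
def count (n y₁ y₂ : ℕ) : ℕ := ((Ioc y₁ y₂).filter (fun p => p.Prime ∧ (n - p).Prime)).card

/-- (1) The formula of Hardy and Littlewood for `g n` holds with a relative error of at most `ε`; (2) in every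
window `(y₁, y₂] ⊆ (0, n]` of a length of at least `n / (log n)^W` the number of primes `p` such that `n - p` is a
prime is `sing n * (y₂ - y₁) / (log n)²` with a relative error of at most `ε`. -/
def Formula (ε : ℝ) (W n : ℕ) : Prop :=
  |(g n : ℝ) - HL n| ≤ ε * HL n ∧
  ∀ y₁ y₂ : ℕ, y₁ < y₂ → y₂ ≤ n → (n : ℝ) / Real.log n ^ W ≤ (y₂ : ℝ) - y₁ →
    |(count n y₁ y₂ : ℝ) - sing n * ((y₂ : ℝ) - y₁) / Real.log n ^ 2| ≤
      ε * (sing n * ((y₂ : ℝ) - y₁) / Real.log n ^ 2)

/-- The even integers `0 < n ≤ x` with `n ≡ a (mod q)` for which `Formula ε W n` is false. -/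
def exceptional (ε : ℝ) (W : ℕ) (x : ℝ) (q : ℕ) (a : ℤ) : Set ℕ :=
  {n : ℕ | 0 < n ∧ (n : ℝ) ≤ x ∧ 2 ∣ n ∧ (n : ℤ) ≡ a [ZMOD q] ∧ ¬ Formula ε W n}

/-- The even multiples `n` of `q` with `x / 2 < n ≤ x` and `g n < δ n / (log n)²`, as in the problem. -/
def few (δ x : ℝ) (q : ℕ) : Set ℕ :=
  {n : ℕ | x / 2 < n ∧ (n : ℝ) ≤ x ∧ 2 ∣ n ∧ q ∣ n ∧ (g n : ℝ) < δ * (n / Real.log n ^ 2)}

theorem cnt_eq (n : ℕ) : Pool.Agent.W93.PG.cnt n 0 n = g n := by
  unfold Pool.Agent.W93.PG.cnt g
  refine card_bij (fun p _ => (p, n - p)) ?_ ?_ ?_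
  · intro p hp
    rw [mem_filter, mem_Ioc] at hp
    rw [mem_filter, HasAntidiagonal.mem_antidiagonal]
    exact ⟨by simp only; omega, hp.2⟩
  · intro p _ p' _ h
    exact congrArg Prod.fst h
  · rintro ⟨a, b⟩ h
    rw [mem_filter, HasAntidiagonal.mem_antidiagonal] at h
    obtain ⟨h1, h2, h3⟩ := h
    simp only at h1 h2 h3
    have ha := h2.pos
    refine ⟨a, ?_, ?_⟩
    · rw [mem_filter, mem_Ioc]
      refine ⟨⟨ha, by omega⟩, h2, ?_⟩
      have : n - a = b := by omega
      rw [this]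
      exact h3
    · have : n - a = b := by omega
      simp [this]

theorem formula_of (ε : ℝ) (W : ℕ) : ∃ n₀ : ℕ, ∀ n : ℕ, n₀ ≤ n → 2 ∣ n →
    Pool.Agent.W93.PG.WinP ε W n → Formula ε W n := by
  refine ⟨3, fun n hn _ hw => ⟨?_, hw⟩⟩
  have hn3 : (3 : ℝ) ≤ n := by exact_mod_cast hn
  have hL1 : 1 ≤ Real.log n := by
    rw [Real.le_log_iff_exp_le (by linarith)]
    have := Real.exp_one_lt_d9
    linarith
  have h1 := hw 0 n (by omega) le_rfl (by
    rw [Nat.cast_zero, sub_zero]
    exact div_le_self (Nat.cast_nonneg _) (one_le_pow₀ hL1))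
  rw [cnt_eq] at h1
  have e : sing n * ((n : ℝ) - ((0 : ℕ) : ℝ)) / Real.log n ^ 2 = HL n := by
    unfold Pool.Agent.H560R3.GB.HL
    push_cast
    ring
  rw [e] at h1
  exact h1

theorem few_le {δ x : ℝ} {q : ℕ} {Q : ℕ → Prop} (hQ : ∀ n : ℕ, Q n → δ * (n / Real.log n ^ 2) ≤ g n)
    (hx8 : Real.exp 8 ≤ x) (hq : 1 ≤ q)
    (h : ({n : ℕ | 0 < n ∧ (n : ℝ) ≤ x ∧ 2 ∣ n ∧ (n : ℤ) ≡ 0 [ZMOD q] ∧ ¬ Q n}).Finite ∧
      (({n : ℕ | 0 < n ∧ (n : ℝ) ≤ x ∧ 2 ∣ n ∧ (n : ℤ) ≡ 0 [ZMOD q] ∧ ¬ Q n}.ncard : ℕ) : ℝ) ≤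
        x / (q * Real.log x ^ 1)) :
    (few δ x q).Finite ∧ ((few δ x q).ncard : ℝ) ≤ x / (8 * q) := by
  have hx0 : 0 < x := lt_of_lt_of_le (Real.exp_pos _) hx8
  have hl8 : 8 ≤ Real.log x := by rw [Real.le_log_iff_exp_le hx0]; exact hx8
  have hq0 : (0 : ℝ) < q := by exact_mod_cast hq
  obtain ⟨f1, f2⟩ := h
  have hsub : few δ x q ⊆ {n : ℕ | 0 < n ∧ (n : ℝ) ≤ x ∧ 2 ∣ n ∧ (n : ℤ) ≡ 0 [ZMOD q] ∧ ¬ Q n} := by
    rintro n ⟨e1, e2, e3, e4, e5⟩
    have hn0 : 0 < n := by
      have : (0 : ℝ) < n := by linarith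
      exact_mod_cast this
    refine ⟨hn0, e2, e3, ?_, ?_⟩
    · exact (Int.modEq_zero_iff_dvd).2 (by exact_mod_cast e4)
    · intro h1
      exact absurd (hQ n h1) (not_le.2 e5)
  refine ⟨f1.subset hsub, ?_⟩
  have h4 : ((few δ x q).ncard : ℝ) ≤
      (({n : ℕ | 0 < n ∧ (n : ℝ) ≤ x ∧ 2 ∣ n ∧ (n : ℤ) ≡ 0 [ZMOD q] ∧ ¬ Q n}.ncard : ℕ) : ℝ) := by
    exact_mod_cast Set.ncard_le_ncard hsub f1
  refine h4.trans (f2.trans ?_)
  rw [pow_one]
  apply div_le_div_of_nonneg_left hx0.le (by positivity)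
  rw [mul_comm (8 : ℝ)]
  exact mul_le_mul_of_nonneg_left hl8 hq0.le

theorem formula_mono {ε ε' : ℝ} {W n : ℕ} (h : ε' ≤ ε) (hF : Formula ε' W n) : Formula ε W n := by
  have h1 := Pool.Agent.R459.sing_num n
  have h0 : 0 ≤ sing n := by linarith
  have hHL : 0 ≤ HL n := by
    unfold Pool.Agent.H560R3.GB.HL
    positivity
  refine ⟨hF.1.trans (mul_le_mul_of_nonneg_right h hHL), fun y₁ y₂ h12 hn hw => (hF.2 y₁ y₂ h12 hn hw).trans ?_⟩
  have h2 : (y₁ : ℝ) ≤ y₂ := by exact_mod_cast h12.le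
  have h3 : 0 ≤ (y₂ : ℝ) - y₁ := by linarith
  exact mul_le_mul_of_nonneg_right h (by positivity)

/-- For all `ε, ρ > 0`, `A` and `W` there is `c` such that for all `B` and all sufficiently large real `x` there is a
finite set `D` of at most `(log x) ^ c` integers, the radical of each of which is larger than `(log x) ^ B`, with the
following property. Let `1 ≤ q ≤ x ^ (2 / 3 - ρ)` be an integer which is not divisible by a member of `D`. Then for
EVERY integer `a` all but at most `x / (q (log x) ^ A)` of the even integers `0 < n ≤ x`, `n ≡ a (mod q)`, satisfy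
`Formula ε W n`; and all but at most `x / (8 q)` of the even multiples `n` of `q` in `(x / 2, x]` satisfy
`g n ≥ (13 / 10) n / (log n)²`, which is the assertion of the problem for `q`, with `δ = 13 / 10`. -/
theorem result (ε ρ : ℝ) (hε : 0 < ε) (hρ : 0 < ρ) (A W : ℕ) :
    ∃ c : ℕ, ∀ B : ℕ, ∃ x₀ : ℝ, ∀ x : ℝ, x₀ ≤ x → ∃ D : Finset ℕ, (D.card : ℝ) ≤ Real.log x ^ c ∧
      (∀ d ∈ D, Real.log x ^ B < (radical d : ℝ)) ∧
      ∀ q : ℕ, 1 ≤ q → (q : ℝ) ≤ x ^ (2 / 3 - ρ) → (∀ d ∈ D, ¬ d ∣ q) →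
        (∀ a : ℤ, (exceptional ε W x q a).Finite ∧
          ((exceptional ε W x q a).ncard : ℝ) ≤ x / (q * Real.log x ^ A)) ∧
        ((few (13 / 10) x q).Finite ∧ ((few (13 / 10) x q).ncard : ℝ) ≤ x / (8 * q)) := by
  obtain ⟨ε', hε'⟩ : ∃ ε', ε' = min ε (1 / 200) := ⟨_, rfl⟩
  have hε0 : 0 < ε' := by rw [hε']; exact lt_min hε (by norm_num)
  have hε1 : ε' ≤ ε := by rw [hε']; exact min_le_left _ _
  have hε2 : ε' ≤ 1 / 200 := by rw [hε']; exact min_le_right _ _
  obtain ⟨c, h⟩ := Pool.Agent.T9h57.GL.class_few_asymp (Formula ε' W) ε' hε0 W (formula_of ε' W) ρ hρ (A + 1)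
  refine ⟨c, fun B => ?_⟩
  obtain ⟨x₀, h0⟩ := h B
  refine ⟨max x₀ (Real.exp 8), fun x hx => ?_⟩
  have hx8 : Real.exp 8 ≤ x := (le_max_right _ _).trans hx
  obtain ⟨D, hD1, hD2, h1⟩ := h0 x ((le_max_left _ _).trans hx)
  have hx0 : 0 < x := lt_of_lt_of_le (Real.exp_pos _) hx8
  have hl8 : 8 ≤ Real.log x := by rw [Real.le_log_iff_exp_le hx0]; exact hx8
  have hl1 : 1 ≤ Real.log x := by linarith
  refine ⟨D, hD1, hD2, fun q hq hqx hqD => ?_⟩
  have hq0 : (0 : ℝ) < q := by exact_mod_cast hq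
  refine ⟨fun a => ?_, ?_⟩
  · obtain ⟨f1, f2⟩ := h1 q hq hqx hqD a
    have hsub : exceptional ε W x q a ⊆
        {n : ℕ | 0 < n ∧ (n : ℝ) ≤ x ∧ 2 ∣ n ∧ (n : ℤ) ≡ a [ZMOD q] ∧ ¬ Formula ε' W n} := by
      rintro n ⟨e1, e2, e3, e4, e5⟩
      exact ⟨e1, e2, e3, e4, fun h => e5 (formula_mono hε1 h)⟩
    refine ⟨f1.subset hsub, ?_⟩
    have h4 : ((exceptional ε W x q a).ncard : ℝ) ≤
        (({n : ℕ | 0 < n ∧ (n : ℝ) ≤ x ∧ 2 ∣ n ∧ (n : ℤ) ≡ a [ZMOD q] ∧ ¬ Formula ε' W n}.ncard : ℕ) : ℝ) := by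
      exact_mod_cast Set.ncard_le_ncard hsub f1
    refine h4.trans (f2.trans ?_)
    apply div_le_div_of_nonneg_left hx0.le (by positivity)
    exact mul_le_mul_of_nonneg_left (pow_le_pow_right₀ hl1 (Nat.le_succ _)) hq0.le
  · obtain ⟨f1, f2⟩ := h1 q hq hqx hqD 0
    refine few_le (Q := Formula ε' W) (fun n hn => ?_) hx8 hq ⟨f1, f2.trans ?_⟩
    · have k1 := abs_le.1 hn.1
      have k2 := Pool.Agent.R459.sing_num n
      have k3 : (0 : ℝ) ≤ (n : ℝ) / Real.log n ^ 2 := by positivity
      have k4 := k1.1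
      unfold Pool.Agent.H560R3.GB.HL at k4
      have k5 : 0 ≤ sing n * ((n : ℝ) / Real.log n ^ 2) := mul_nonneg (by linarith) k3
      have k6 : ε' * (sing n * ((n : ℝ) / Real.log n ^ 2)) ≤ 1 / 200 * (sing n * ((n : ℝ) / Real.log n ^ 2)) :=
        mul_le_mul_of_nonneg_right hε2 k5
      nlinarith
    · apply div_le_div_of_nonneg_left hx0.le (by positivity)
      exact mul_le_mul_of_nonneg_left (pow_le_pow_right₀ hl1 (by omega)) hq0.le

end Pool.Agent.Results.MP_92f640_nt.TwoThirdsLargeRadical
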